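import Pool.Agent.Y211.PY.Stm

set_option autoImplicit false

/-!
# Y211-PY RAT: rational varieties have rational points, and transcendence degree
-/

universe u

namespace Pool.Agent.Y448.PY

open Pool.Agent.Y211.PY

/-- `S_RAT` -/
theorem t : S_RAT.{u} := by
  intro K A _ _ _ _ _ _ ⟨e⟩
  set P := MvPolynomial (Fin 2) K
  set E := FractionRing (MvPolynomial (Fin 2) K)
  -- the map `A → E`
  let ψ : A →ₐ[K] E := e.toAlgHom.comp (IsScalarTower.toAlgHom K A (FractionRing A))
  obtain ⟨s, hs⟩ := (inferInstance : Algebra.FiniteType K A).out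
  obtain ⟨q, hq⟩ := IsLocalization.exist_integer_multiples (nonZeroDivisors P) s
    (fun a => (ψ a : E))
  have hq0 : (q : P) ≠ 0 := nonZeroDivisors.coe_ne_zero q
  -- a point where `q` does not vanish
  obtain ⟨c, hc⟩ : ∃ c : Fin 2 → K, MvPolynomial.eval c (q : P) ≠ 0 := by
    by_contra hcon
    push Not at hcon
    apply hq0
    apply MvPolynomial.funext
    intro x
    rw [hcon x, map_zero]
  have hprime : (RingHom.ker (MvPolynomial.eval c : P →+* K)).IsPrime :=
    RingHom.ker_isPrime _
  let M : Submonoid P := (RingHom.ker (MvPolynomial.eval c : P →+* K)).primeCompl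
  have hM : ∀ y : P, y ∈ M ↔ MvPolynomial.eval c y ≠ 0 := fun y => Iff.rfl
  let L := Localization M
  have hE : ∀ y : M, IsUnit (IsScalarTower.toAlgHom K P E (y : P)) := by
    intro y
    rw [isUnit_iff_ne_zero]
    intro h0
    have h1 : algebraMap P E (y : P) = 0 := h0
    rw [FaithfulSMul.algebraMap_eq_zero_iff] at h1
    have h2 := (hM y).1 y.2
    rw [h1, map_zero] at h2
    exact h2 rfl
  have hK : ∀ y : M, IsUnit (MvPolynomial.aeval c (y : P) : K) := by
    intro y
    rw [isUnit_iff_ne_zero]
    have h1 : (MvPolynomial.aeval c (y : P) : K) = MvPolynomial.eval c (y : P) := by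
      rw [MvPolynomial.aeval_eq_eval]
    rw [h1]
    exact (hM y).1 y.2
  let j : L →ₐ[K] E := IsLocalization.liftAlgHom (M := M) hE
  let k : L →ₐ[K] K := IsLocalization.liftAlgHom (M := M) hK
  have hj1 : ∀ p : P, j (algebraMap P L p) = algebraMap P E p := by
    intro p
    exact IsLocalization.lift_eq (M := M) (g := (IsScalarTower.toAlgHom K P E : P →+* E)) hE p
  have hMle : M ≤ nonZeroDivisors P := by
    intro y hy
    rw [mem_nonZeroDivisors_iff_ne_zero]
    rintro rfl
    have := (hM 0).1 hy
    rw [map_zero] at this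
    exact this rfl
  have hj : Function.Injective j := by
    rw [injective_iff_map_eq_zero]
    intro x hx
    obtain ⟨p, y, rfl⟩ := IsLocalization.exists_mk'_eq M x
    have h1 : j (IsLocalization.mk' L p y) * algebraMap P E (y : P) = algebraMap P E p := by
      rw [← hj1, ← hj1, ← map_mul, IsLocalization.mk'_spec]
    rw [hx, zero_mul] at h1
    have h2 : p = 0 := by
      rw [eq_comm, FaithfulSMul.algebraMap_eq_zero_iff] at h1
      exact h1
    rw [h2, IsLocalization.mk'_zero]
  have hrange : ψ.range ≤ j.range := by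
    have h1 : ψ.range = Algebra.adjoin K (ψ '' (s : Set A)) := by
      rw [← AlgHom.map_adjoin, hs, Algebra.map_top]
    rw [h1, Algebra.adjoin_le_iff]
    rintro _ ⟨a, ha, rfl⟩
    obtain ⟨p, hp⟩ := hq a ha
    have hqM : (q : P) ∈ M := hc
    refine ⟨IsLocalization.mk' L p ⟨q, hqM⟩, ?_⟩
    have h3 : j (IsLocalization.mk' L p ⟨q, hqM⟩) * algebraMap P E (q : P) =
        algebraMap P E p := by
      rw [← hj1, ← hj1, ← map_mul, IsLocalization.mk'_spec]
    have h4 : ψ a * algebraMap P E (q : P) = algebraMap P E p := by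
      rw [hp, Algebra.smul_def, mul_comm]
    have h5 : algebraMap P E (q : P) ≠ 0 := by
      intro h0
      exact hq0 ((FaithfulSMul.algebraMap_eq_zero_iff P E).1 h0)
    exact mul_right_cancel₀ h5 (h3.trans h4.symm)
  let ψ' : A →ₐ[K] j.range := ψ.codRestrict j.range fun a => hrange ⟨a, rfl⟩
  exact ⟨k.comp ((AlgEquiv.ofInjective j hj).symm.toAlgHom.comp ψ')⟩

/-- `S_TRD` -/
theorem tT : S_TRD.{u} := by
  intro K _ h hh
  have h1 := hh.lift_cardinalMk_le_trdeg
  have halg : Algebra.IsAlgebraic (MvPolynomial (Fin 2) K)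
      (FractionRing (MvPolynomial (Fin 2) K)) :=
    IsLocalization.isAlgebraic (FractionRing (MvPolynomial (Fin 2) K))
      (nonZeroDivisors (MvPolynomial (Fin 2) K))
  have h2 : Algebra.trdeg K (FractionRing (MvPolynomial (Fin 2) K)) = 2 := by
    rw [← _root_.trdeg_add_eq K (MvPolynomial (Fin 2) K)
      (A := FractionRing (MvPolynomial (Fin 2) K)), MvPolynomial.trdeg_of_isDomain,
      _root_.trdeg_eq_zero]
    simp
  rw [h2] at h1
  simp at h1
  norm_cast at h1

end Pool.Agent.Y448.PY
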